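import Pool.Agent.N13.SV.Bary

/-!
Gromov's question for right-angled reflection manifolds: nerves with coloured vertices, order
complexes, barycentric subdivisions.

Let `L` be the flag complex of a finite graph `G` on `V`, of dimension `2 d + 1`, and let `H` be a
subgroup of finite index of the right-angled Coxeter group `W G` which consists of elements of even
length (`H ≤ (par G).ker`). The quotient `M = Σ/H` of the Davis complex is a closed oriented
`(2 d + 2)`-dimensional pseudo-manifold if `L` is a closed oriented pseudo-manifold, and if `L` is a
combinatorial sphere and `H` is torsion-free it is a closed aspherical manifold with fundamental group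
`H`. By Gromov's duality principle `‖M‖ = 0` if and only if the comparison map
`H_b^n(H; ℝ) → H^n(H; ℝ)`, `n = 2 d + 2`, is zero (`ZeroSV n H`). `IsCyc n G a` means that `a` is a
real `(n-1)`-cycle of `L` (an alternating function on the `n`-tuples of vertices), `push f a` is its
image under a map `f` of the vertices.

Idea: let the vertices be coloured by `d + 1` colours without monochromatic triangles. An edge `s t`
which is in no monochromatic cycle of length four defines a map of its colour class to the pentagon,
which preserves edges or maps them to vertices (`s` and `t` are mapped to two adjacent vertices, the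
other neighbours of `t` resp. `s` of this colour to the next vertex on each side, and all other
vertices of this colour to the last vertex). So `L` is mapped to the join of `d + 1` pentagons, with
degree equal to the coefficient of the cycle at the simplex `v`, and `M` dominates a product of
hyperbolic surfaces. For a barycentric subdivision the simplices of dimensions `2 i` and `2 i + 1` get
the same colour.
-/

set_option autoImplicit false

open scoped Classical

namespace Pool.Agent.Results.MP_8a95ee_gt.ColouredNerves

open Pool.Agent.W907.SG (W) 
open Pool.Agent.Q134.SV Pool.Agent.N13.SV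

/-- (1) Let the vertices of `G₀` be coloured by `d + 1` colours, without monochromatic triangles, and
let `f` be a simplicial map from the flag complex of `G` to the flag complex of `G₀` and `a` a
`(2 d + 1)`-cycle such that `f_* a` does not vanish at a simplex `v` of `G₀` whose monochromatic edges
are in no monochromatic cycle of length four. Then there is a bounded real `(2 d + 2)`-cocycle of `H`
which is not a coboundary, for all subgroups `H` of finite index of `W G` which consist of elements of
even length.

(2) The same holds for every nonzero `(2 d + 1)`-cycle of the order complex of a finite poset with a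
strictly monotone function `rk` to `{0, …, 2 d + 1}`, if two different elements of rank `2 i` have at
most one common upper bound of rank `2 i + 1` (for all `i`; for example the face posets of simplicial
complexes, cubical complexes and polyhedral complexes).

(3) The same holds for every nonzero `(2 d + 1)`-cycle of the barycentric subdivision of a simplicial
complex of dimension at most `2 d + 1` (more generally of the order complex of a finite family of
nonempty sets with at most `2 d + 2` elements). -/
theorem result :
    (∀ (d : ℕ) (V V₀ : Type) [Fintype V] [Fintype V₀] (G : SimpleGraph V) (G₀ : SimpleGraph V₀)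
      (f : V → V₀) (col : V₀ → ℕ) (a : (Fin (2 * (d + 1)) → V) → ℝ) (v : Fin (2 * (d + 1)) → V₀),
      (∀ x y, G.Adj x y → f x = f y ∨ G₀.Adj (f x) (f y)) →
      (∀ x, col x < d + 1) →
      (∀ x y z, G₀.Adj x y → G₀.Adj y z → G₀.Adj x z → ¬ (col x = col y ∧ col y = col z)) →
      IsCyc (2 * (d + 1)) G a → push f a v ≠ 0 →
      (∀ i j : Fin (2 * (d + 1)), ∀ x y : V₀, G₀.Adj (v i) (v j) → G₀.Adj (v j) x →
        G₀.Adj x y → G₀.Adj y (v i) → col (v i) = col (v j) → col (v j) = col x →
        col x = col y → x = v i ∨ y = v j) →
      ∀ H : Subgroup (W G), H.index ≠ 0 → H ≤ (par G).ker → ¬ ZeroSV (2 * (d + 1)) H) ∧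
    (∀ (d : ℕ) (P : Type) [Fintype P] [PartialOrder P] (rk : P → ℕ), StrictMono rk →
      (∀ x, rk x < 2 * (d + 1)) →
      (∀ x x' y y' : P, Even (rk x) → rk x' = rk x → rk y = rk x + 1 → rk y' = rk x + 1 →
        x < y → x < y' → x' < y → x' < y' → x = x' ∨ y = y') →
      ∀ a : (Fin (2 * (d + 1)) → P) → ℝ, IsCyc (2 * (d + 1)) (ordG P) a → a ≠ 0 →
      ∀ H : Subgroup (W (ordG P)), H.index ≠ 0 → H ≤ (par (ordG P)).ker →
        ¬ ZeroSV (2 * (d + 1)) H) ∧
    (∀ (d N : ℕ) (K : Finset (Finset (Fin N))), (∀ σ ∈ K, σ.Nonempty ∧ σ.card ≤ 2 * (d + 1)) →
      ∀ a : (Fin (2 * (d + 1)) → K) → ℝ, IsCyc (2 * (d + 1)) (ordG K) a → a ≠ 0 →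
      ∀ H : Subgroup (W (ordG K)), H.index ≠ 0 → H ≤ (par (ordG K)).ker →
        ¬ ZeroSV (2 * (d + 1)) H) := by
  refine ⟨?_, ?_, ?_⟩
  · intro d V V₀ _ _ G G₀ f col a v hf hcol htri ha hv hgood H hH hε
    exact Det.not_zeroSV (m := 2 * d + 1)
      (det_of_push f hf (det_colour (d + 1) V₀ G₀ col hcol htri _ (ha.push f hf) v hv hgood))
      ha H hH hε
  · intro d P _ _ rk hrk hd hsq a ha hne H hH hε
    exact Det.not_zeroSV (m := 2 * d + 1) (det_order (d + 1) P rk hrk hd hsq a ha hne) ha H hH hε
  · intro d N K hK a ha hne H hH hε
    exact Det.not_zeroSV (m := 2 * d + 1) (det_bary (d + 1) N K hK a ha hne) ha H hH hε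

end Pool.Agent.Results.MP_8a95ee_gt.ColouredNerves
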