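import Pool.Agent.N13.QC.All

/-!
Simplicial volume, number of cubes, Betti numbers and Euler characteristic of right-angled reflection
manifolds.

By helper13, with helper853, helper27, helper340, helper152, helper123, helper482, helper700,
helper803, helper644, helper106, helper558, helper459 and helper273 (project QC).

Let `L` be the flag complex of a finite graph `G` on `V` and `H` a subgroup of finite index of the
right-angled Coxeter group `W G` which consists of elements of even length (`H ≤ (par G).ker`). If `L`
is a combinatorial sphere of dimension `n - 1` and `H` is torsion-free then the quotient `M = Σ/H` of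
the Davis complex is a closed oriented aspherical `n`-manifold with fundamental group `H` and
`χ(M) = [W G : H] χ(W G)`; it consists of `[W G : H] N / 2^n` cubes of dimension `n`, where
`N = ncl G n` is the number of the `(n-1)`-simplices of `L`. If `a` is the fundamental cycle of `L`
(`IsCyc n G a`, `|a| = 1` at all simplices) then `fch G n a H` is the fundamental cycle of `M` and
`svol G n a H`, its `ℓ¹`-seminorm in the homology of `H`, is `‖M‖` (Gromov's mapping theorem). We
consider `n = 2 k`.

A proper colouring of the vertices by the colours `0, …, 2 k - 1` is good (`PCol k G col`) if there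
are no cycles of length four of the colours `2 i`, `2 i + 1` (for all `i`). Order complexes of posets
with a rank function are coloured by the rank, and this colouring is good if two elements of rank
`2 i` have at most one common upper bound of rank `2 i + 1`; so all barycentric subdivisions of
simplicial complexes of dimension at most `2 k - 1` have good colourings.

The proof constructs explicit bounded cocycles with universal bounds. For a bipartite graph (the graph
of the colours `2 i`, `2 i + 1`) with a real function `φ` on its oriented edges, which is additive on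
4-cycles, there is a bounded 2-cocycle of its right-angled Coxeter group, with coefficients twisted by
the parity, and with the value `2 φ(s, t)` at `(1, s, s t)`: the value at `(g₀, g₁, g₂)` is the sum over
all vertices `v` of the Davis complex of `ε(v) (P(λ₀, λ₁) + P(λ₁, λ₂) + P(λ₂, λ₀))`, where `P` extends
`φ` to all pairs of vertices of the graph and `λ_j` is the label of the first edge of a path from `v`
to `g_j`. The local term vanishes at all but eight vertices (`S_C`; like for the trisector of a
geodesic triangle), and this holds with a bound for the sum over all edges (`S_H`). The product of `k`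
such cocycles is evaluated at the fundamental cycle (`S_V`).
-/

set_option autoImplicit false

open scoped Classical

namespace Pool.Agent.Results.MP_8a95ee_gt.VolumeAndEuler

open Pool.Agent.W907.SG (W chiW)
open Pool.Agent.Q134.SV Pool.Agent.N13.SV Pool.Agent.N13.QC

/-- (1) Let `f` be a simplicial map from the flag complex of `G` to the flag complex of `G₀`, whose
vertices are properly coloured by `0, …, 2 k - 1`, and `a` a `(2 k - 1)`-cycle. For all antisymmetric
functions `φ_i` on the edges of colours `2 i`, `2 i + 1` which are additive on 4-cycles and bounded by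
`B_i` the simplicial volume is bounded from below by the value of `∏ φ_i` at `f_* a`.

(2) In the same situation the simplicial volume is at least `48^(-k)` times the index times the sum of
the absolute values of the coefficients of `f_* a` at the simplices whose edges of colours `2 i`,
`2 i + 1` are in no 4-cycle of these colours (`GoodE`).

(3) For good colourings the simplicial volume and the `ℓ¹`-norm of the cycle differ by factors which
depend only on `k`.

(4) Let the colouring be good and `a` a fundamental cycle, i.e. `|a| = 1` at all `(2 k - 1)`-simplices.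
Then the index times the number of the `(2 k - 1)`-simplices is at most `48^k` times the simplicial
volume. If moreover each simplex is contained in a `(2 k - 1)`-simplex then the Euler characteristic
`[W G : H] χ(W G)` is at most `108^k` times the simplicial volume, and the sum of the Betti numbers
is at most `192^k` times the simplicial volume.

(5) The rank is a good colouring of the order complex of a poset with a strictly monotone function to
`{0, …, 2 k - 1}`, if two different elements of rank `2 i` have at most one common upper bound of rank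
`2 i + 1`, for all `i`.

(6) The dimension is a good colouring of the barycentric subdivision of every simplicial complex of
dimension at most `2 k - 1` (and of the order complex of every finite set of nonempty finite sets with
at most `2 k` elements). -/
theorem result :
    (∀ (k : ℕ) (V V₀ : Type) [Fintype V] [Fintype V₀] (G : SimpleGraph V) (G₀ : SimpleGraph V₀)
      (f : V → V₀), (∀ x y, G.Adj x y → f x = f y ∨ G₀.Adj (f x) (f y)) →
      ∀ col : V₀ → ℕ, (∀ u v, G₀.Adj u v → col u ≠ col v) → (∀ v, col v < 2 * k) →
      ∀ (φ : Fin k → V₀ → V₀ → ℝ) (B : Fin k → ℝ), (∀ i a b, φ i a b = - φ i b a) →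
      (∀ (i : Fin k) a b z z', InP col i a → InP col i b → InP col i z → InP col i z' →
        G₀.Adj a z → G₀.Adj z b → G₀.Adj a z' → G₀.Adj z' b →
        φ i a z + φ i z b = φ i a z' + φ i z' b) →
      (∀ i, 0 ≤ B i) →
      (∀ (i : Fin k) a b, InP col i a → InP col i b → G₀.Adj a b → |φ i a b| ≤ B i) →
      ∀ a : (Fin (2 * k) → V) → ℝ, IsCyc (2 * k) G a →
      ∀ H : Subgroup (W G), H.index ≠ 0 → H ≤ (par G).ker →
      (H.index : ℝ) * |∑ v : Fin (2 * k) → V₀, push f a v * PR k (fun i s t =>
        if InP col i s ∧ InP col i t then 2 * φ i s t else 0) v| ≤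
        2 ^ (2 * k) * (∏ i, 48 * B i) * svol G (2 * k) a H) ∧
    (∀ (k : ℕ) (V V₀ : Type) [Fintype V] [Fintype V₀] (G : SimpleGraph V) (G₀ : SimpleGraph V₀)
      (f : V → V₀), (∀ x y, G.Adj x y → f x = f y ∨ G₀.Adj (f x) (f y)) →
      ∀ col : V₀ → ℕ, (∀ u v, G₀.Adj u v → col u ≠ col v) → (∀ v, col v < 2 * k) →
      ∀ a : (Fin (2 * k) → V) → ℝ, IsCyc (2 * k) G a →
      ∀ H : Subgroup (W G), H.index ≠ 0 → H ≤ (par G).ker →
      (H.index : ℝ) * (∑ e : Fin k → V₀ × V₀,
        if ∀ i : Fin k, GoodE G₀ col i (e i) then |push f a (jn k e)| else 0) ≤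
        48 ^ k * svol G (2 * k) a H) ∧
    (∀ (k : ℕ) (V : Type) [Fintype V] (G : SimpleGraph V) (col : V → ℕ), PCol k G col →
      ∀ a : (Fin (2 * k) → V) → ℝ, IsCyc (2 * k) G a →
      ∀ H : Subgroup (W G), H.index ≠ 0 → H ≤ (par G).ker →
      (H.index : ℝ) * ∑ v, |a v| ≤ (2 * k).factorial * 48 ^ k * svol G (2 * k) a H ∧
      4 ^ k * svol G (2 * k) a H ≤ (H.index : ℝ) * ∑ v, |a v|) ∧
    (∀ (k : ℕ) (V : Type) [Fintype V] (G : SimpleGraph V) (col : V → ℕ), PCol k G col →
      ∀ a : (Fin (2 * k) → V) → ℝ, IsCyc (2 * k) G a →
      (∀ v : Fin (2 * k) → V, (∀ i j, i ≠ j → G.Adj (v i) (v j)) → |a v| = 1) →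
      ∀ H : Subgroup (W G), H.index ≠ 0 → H ≤ (par G).ker →
      (H.index : ℝ) * ncl G (2 * k) ≤ 48 ^ k * svol G (2 * k) a H ∧
      ((∀ T : Finset V, G.IsClique (T : Set V) →
          ∃ T' : Finset V, T ⊆ T' ∧ G.IsNClique (2 * k) T') →
        (H.index : ℝ) * |(chiW G : ℝ)| ≤ 108 ^ k * svol G (2 * k) a H ∧
        ∀ [LinearOrder V] (m : ℕ), (∑ i ∈ Finset.range m,
          (Module.finrank ℝ (Pool.Agent.Y132.SI.HInv G H i) : ℝ)) ≤
          192 ^ k * svol G (2 * k) a H)) ∧
    (∀ (k : ℕ) (P : Type) [PartialOrder P] (rk : P → ℕ), StrictMono rk → (∀ x, rk x < 2 * k) →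
      (∀ x x' y y' : P, Even (rk x) → rk x' = rk x → rk y = rk x + 1 → rk y' = rk x + 1 →
        x < y → x < y' → x' < y → x' < y' → x = x' ∨ y = y') → PCol k (ordG P) rk) ∧
    (∀ (k : ℕ) (X : Type) (K : Finset (Finset X)), (∀ σ ∈ K, σ.Nonempty ∧ σ.card ≤ 2 * k) →
      PCol k (ordG K) fun σ => (σ : Finset X).card - 1) := by
  refine ⟨?_, ?_, ?_, ?_, pcol_ord, pcol_bary⟩
  · intro k V V₀ _ _ G G₀ f hf col hprop hcol φ B hanti hsq hB0 hφ a ha H hi hε
    exact weights all_H t_U t_B t_V t_T k V V₀ G G₀ f hf col hprop hcol φ B hanti hsq hB0 hφ a ha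
      H hi hε
  · intro k V V₀ _ _ G G₀ f hf col hprop hcol a ha H hi hε
    exact lower all_H t_U t_B t_V t_E t_T k V V₀ G G₀ f hf col hprop hcol a ha H hi hε
  · intro k V _ G col h a ha H hi hε
    refine ⟨l1_svol h ha H hi hε, ?_⟩
    have h2 := svol_le G (2 * k) a H hi
    rw [pow_mul, show (2 : ℝ) ^ 2 = 4 by norm_num] at h2
    exact h2
  · intro k V _ G col h a ha h1 H hi hε
    exact ⟨cubes_svol h ha H hi hε h1, fun hp => ⟨chi_svol h ha H hi hε h1 hp,
      fun {_} m => betti_svol h ha H hi hε h1 hp m⟩⟩

end Pool.Agent.Results.MP_8a95ee_gt.VolumeAndEuler
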